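import Mathlib
import Pool.Agent.H317.GH.Stm

/-!
# Project GI: groups in the genus of `SL_3(ℤ)` with a solvable subgroup which is not virtually abelian, or with a distorted element in a `ℤ²`
(statements, with complete paper proofs)

Goal: let `Λ` be a finitely generated residually finite group with the same finite quotients as `SL_3(ℤ)` (`Genus 3 Λ`). (i) If `Λ` has a solvable subgroup which is not virtually abelian, then `Λ ≅ SL_3(ℤ)`.
(ii) If `x, y ∈ Λ` commute, have no common powers, and `x` is distorted, then `Λ ≅ SL_3(ℤ)`.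

`S_CNJ`, `S_PAI`, `S_DSC`, `S_TRZ`, `S_RKZ`, `S_LIN`, … are statements of project GR (`Pool/Agent/H317/GR/StmA.lean`, `StmB.lean`), proved in `Pool/Agent/H317/GR/All.lean`; here they are used as hypotheses, as indicated.
-/

set_option autoImplicit false

namespace Pool.Agent.H317.GI

open Matrix Module Pool.Agent.H317.GR Pool.Agent.H317.GH

/-- **LATK** (`S_LAT` with a power of `ρ(t) - 1`; the proof of `S_LAT` is `Pool/Agent/H176/GR/LAT.lean`, on origin/main; adapt it).

Proof. Put `X = (ρ t - 1)^k = v φ` and for `g ∈ G` let `m_g : G → ℤ`, `m_g(h) = ∑_{i ≤ k} (-1)^{k-i} C(k,i) ψ(h g t^i)`. In `K`: `m_g(h) = tr(ρ(h) ρ(g) X) = φ ρ(h) ρ(g) v` (binomial theorem, `ρ t` and `1` commute). From here on the proof of `S_LAT` is unchanged. (More generally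
it works for every `X = v φ ≠ 0` such that all `tr(ρ(g) X)` are integers.) -/
def S_LATK : Prop := ∀ (K : Type) [Field K] [CharZero K] (G : Type) [Group G] (n : ℕ)
  (ρ : G →* GL (Fin n) K) (ψ : G → ℤ), AI ρ → (∀ g, (ρ g).val.trace = (ψ g : K)) →
  ∀ (t : G) (k : ℕ) (v φ : Fin n → K), v ≠ 0 → φ ≠ 0 → ((ρ t).val - 1) ^ k = vecMulVec v φ →
  ∃ (σ : G →* GL (Fin n) ℤ) (P : GL (Fin n) K),
    ∀ g, GeneralLinearGroup.map (Int.castRingHom K) (σ g) * P = P * ρ g

/-- **SIGK** (hypotheses `S_AIE`, `S_CNJ`, `S_LATK`, `S_ING`, `S_MOD`, `S_PAI`): `S_SIG` with a power of `ρ(t) - 1`, and with the conjugating matrix in the conclusion. The proof of `S_SIG` is `Pool/Agent/H767/GR/SIG.lean` (helper767, origin/main); adapt it.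

Proof. Replacing `ψ` by `ψ'(g) = ψ(g⁻¹)` if necessary we may assume `tr ρ_2(g) = ψ(g)` for all `g`. Let `ρ_K = (GeneralLinearGroup.map (algebraMap ℚ_[2] K)) ∘ toQ ∘ ρ_2`, `K = AlgebraicClosure ℚ_[2]`; it is `AI` with traces `ψ`. By `S_LATK` there are
`σ₀ : Λ → GL_n(ℤ)` and `P` with `σ₀(g) P = P ρ_K(g)`. As in the proof of `S_SIG` (`S_CNJ`, `S_ING` for all `q`, and `S_MOD`) there is `σ : Λ → SL_n(ℤ)` with the same matrices as `σ₀` and with the congruence property. `std n K (σ g) = map (σ₀ g)`. -/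
def S_SIGK : Prop := ∀ (n : ℕ), 3 ≤ n → ∀ (Λ : Type) [Group Λ]
  (f : ∀ m : ℕ, Λ →* SpecialLinearGroup (Fin n) (ZMod m)), Compat f →
  ∀ (ρ : ∀ (p : ℕ) [Fact p.Prime], Λ →* SpecialLinearGroup (Fin n) ℤ_[p]),
  (∀ (p : ℕ) [Fact p.Prime] (k : ℕ) (g : Λ), SpecialLinearGroup.map (PadicInt.toZModPow k) (ρ p g) = f (p ^ k) g) →
  (∀ (p : ℕ) [Fact p.Prime], DenseP (ρ p)) →
  ∀ ψ : Λ → ℤ, (∀ (p : ℕ) [Fact p.Prime],
    (∀ g, (ρ p g).val.trace = (ψ g : ℤ_[p])) ∨ (∀ g, (ρ p g).val.trace = (ψ g⁻¹ : ℤ_[p]))) →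
  haveI : Fact (Nat.Prime 2) := ⟨Nat.prime_two⟩
  ∀ (t : Λ) (k : ℕ) (v φ : Fin n → AlgebraicClosure ℚ_[2]), v ≠ 0 → φ ≠ 0 →
  ((GeneralLinearGroup.map (algebraMap ℚ_[2] (AlgebraicClosure ℚ_[2])) (toQ n 2 (ρ 2 t))).val - 1) ^ k
    = vecMulVec v φ →
  ∃ (σ : Λ →* SZ n) (P : GL (Fin n) (AlgebraicClosure ℚ_[2])),
    (∀ m : ℕ, 0 < m → ∀ g, SpecialLinearGroup.map (Int.castRingHom (ZMod m)) (σ g) = 1 ↔ f m g = 1) ∧
    ∀ g, std n (AlgebraicClosure ℚ_[2]) (σ g) * P =
      P * GeneralLinearGroup.map (algebraMap ℚ_[2] (AlgebraicClosure ℚ_[2])) (toQ n 2 (ρ 2 g))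

/-- **RK1**. A nonzero nilpotent `3 × 3` matrix has a power of rank one.

Proof. If `A² ≠ 0` take `k = 2`: choose `w` with `A² w ≠ 0`; then `w, A w, A² w` is a basis (apply `A²`, then `A`, to a relation), and `A²` maps them to `A² w, 0, 0`, so all columns of `A²` are multiples of `A² w`. If `A² = 0` take `k = 1`: choose a column `v = A w ≠ 0` of `A`; if some column
`v' = A w'` is not a multiple of `v`, then `v, v', w, w'` are linearly independent (apply `A` to a relation: `A v = A v' = 0`), impossible in dimension `3`. So all columns are multiples of `v` and `A = vecMulVec v φ`. -/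
def S_RK1 : Prop := ∀ (K : Type) [Field K] (A : Matrix (Fin 3) (Fin 3) K), A ≠ 0 → A ^ 3 = 0 →
  ∃ (k : ℕ) (v φ : Fin 3 → K), v ≠ 0 ∧ φ ≠ 0 ∧ A ^ k = vecMulVec v φ

/-- **CH3** (Cayley–Hamilton).

Proof. For `A ∈ SL_3(R)`: `A³ - tr(A) A² + tr(A⁻¹) A - 1 = 0`, since `A⁻¹ = adj A` and the sum of the principal `2 × 2` minors is `tr(adj A)`. (Direct verification: `Matrix.adjugate_fin_three`, `Matrix.det_fin_three`, `Matrix.trace_fin_three`, entries and `linear_combination`; or `Matrix.aeval_self_charpoly`.)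
With both traces `3` this is `(A - 1)³ = 0`. -/
def S_CH3 : Prop := ∀ (R : Type) [CommRing R] (A : SpecialLinearGroup (Fin 3) R),
  A.val.trace = 3 → (A⁻¹).val.trace = 3 → (A.val - 1) ^ 3 = 0

/-- **CUN** (hypotheses `S_RK1`, `S_RKZ`, `S_LIN`; use them only if convenient). A matrix in `SL_3(ℤ)` commuting with a nontrivial unipotent matrix has unipotent square.

Proof. Over `ℚ`, `V = ℚ³`, `N = X - 1 ≠ 0`, `N³ = 0`, `Y N = N Y`. Case `N² ≠ 0`: choose `w` with `N² w ≠ 0`; `w, N w, N² w` is a basis, `Y w = α w + β N w + γ N² w`, so `Y = α + β N + γ N²` (both sides commute with `N` and agree on `w`). `Y` is triangular in the basis `N² w, N w, w` with diagonal `α`, so `α³ = det Y = 1`,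
`α = 1` (`α ∈ ℚ`), and `Y - 1 = β N + γ N²`, `(Y - 1)³ = 0`, `(Y² - 1)³ = (Y - 1)³ (Y + 1)³ = 0`.
Case `N² = 0`: then `N = a b` (`vecMulVec a b`) with nonzero integral vectors (`S_RK1` gives rank one over `ℚ` — with `k = 1`, as `N^k = 0` for `k ≥ 2` and `k = 0` is impossible: `1` does not have rank one — then `S_RKZ`), and `b · a = 0` (`N² = 0`). By `S_LIN` `Y a = ε a`, `ε = ± 1`; then `ε a b = Y a b = a (b Y)` so
`b Y = ε b`. So `Y` acts by `ε` on `ℚ a` and on `V / ker b`, and by some `δ` on the line `ker b / ℚ a`; `det Y = ε² δ = 1`, so `δ = 1`. So `b (Y² - 1) = 0`, `(Y² - 1)` maps `ker b` into `ℚ a`, and `(Y² - 1) a = 0`: `(Y² - 1)³ = 0`. (To see `δ`: choose a basis `a, c, d` of `V` with `a, c` a basis of `ker b`.) -/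
def S_CUN : Prop := ∀ X Y : SZ 3, X ≠ 1 → (X.val - 1) ^ 3 = 0 → X * Y = Y * X →
  ((Y ^ 2).val - 1) ^ 3 = 0

/-- `x` is distorted in `G` (its translation length in the word metric of a finite set is zero): there is a finite set `S` such that for all `C` some power `x ^ k`, `k ≥ 1`, is a product of at most `k / C` elements of `S ∪ S⁻¹` -/
def Distorted {G : Type} [Group G] (x : G) : Prop :=
  ∃ S : Finset G, ∀ C : ℕ, ∃ k : ℕ, 1 ≤ k ∧ ∃ l : List G,
    (∀ s ∈ l, s ∈ S ∨ s⁻¹ ∈ S) ∧ l.prod = x ^ k ∧ C * l.length ≤ k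

/-- **DST**. A distorted element acts quasi-unipotently in a complex representation of degree `3` with integral traces.

Proof. (1) Let `‖·‖` be a submultiplicative norm on `M_3(ℂ)` (e.g. the operator norm of `EuclideanSpace`, or `Matrix.linftyOpNormedRing`), `M ≥ 1` a bound for `‖ρ(s)‖`, `‖ρ(s⁻¹)‖`, `s ∈ S`. If `w ≠ 0`, `ρ(x) w = λ w`, then `|λ|^k ‖w‖ = ‖ρ(x^k) w‖ ≤ M^{|l|} ‖w‖`, and `C |l| ≤ k`; so
`|λ|^{k C} ≤ M^{C |l|} ≤ M^k`, `|λ|^C ≤ M` for all `C`. So `|λ| ≤ 1`. `x⁻¹` is distorted too (reverse the words and invert the letters), so all eigenvalues of `ρ(x)` have absolute value `1`.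
(2) Let `λ_1, λ_2, λ_3` be the eigenvalues (roots of the characteristic polynomial, with multiplicity); `ψ(x^m) = λ_1^m + λ_2^m + λ_3^m`, an integer of absolute value at most `3`, for all `m ≥ 0`. By the pigeonhole principle there are `i < j` such that `ψ(x^{r 2^i}) = ψ(x^{r 2^j})` for `r = 1, 2, 3`. So the triples `(λ_a^{2^i})_a` and `(λ_a^{2^j})_a` have the
same power sums `p_1, p_2, p_3`, so the same elementary symmetric functions (Newton; characteristic zero), so they are equal as multisets: with `μ_a = λ_a^{2^i}`, `d = j - i ≥ 1`: `μ_a^{2^d} = μ_{π(a)}` for a map (permutation) `π` of `{1,2,3}`. For any `a` the sequence `a, π a, π² a, …` is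
eventually periodic: `π^r a = π^s a` for some `r < s`, so `μ_a^{2^{d r}} = μ_a^{2^{d s}}`, and as `μ_a ≠ 0`, `μ_a` is a root of unity. So there is `N > 0` with `λ_a^N = 1` for all `a`, so `ψ(x^N) = 3`, and `ψ((x^N)⁻¹) = ∑ λ_a^{-N} = 3`.
(Alternatively (2): Kronecker's theorem; or: avoid multisets — each `λ_a` is a root of the monic polynomial with coefficients determined by the power sums, and finitely many such polynomials occur for the `λ_a^{2^i}`, `i ≥ 0`, so `{λ_a^{2^i}}` is a finite set, so `λ_a^{2^i} = λ_a^{2^j}` for some `i < j`, and `λ_a` is a root of unity.) -/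
def S_DST : Prop := ∀ (G : Type) [Group G] (ρ : G →* GL (Fin 3) ℂ) (ψ : G → ℤ),
  (∀ g, (ρ g).val.trace = (ψ g : ℂ)) → ∀ x : G, Distorted x →
  ∃ N : ℕ, 0 < N ∧ ψ (x ^ N) = 3 ∧ ψ ((x ^ N)⁻¹) = 3

/-- **CPX** (hypothesis `S_DSC`). A representation with integral traces over any algebraically closed field of characteristic zero gives one over `ℂ`.

Proof. Let `k = AlgebraicClosure ℚ`; there is a ring homomorphism `k → K` (`IsAlgClosed.lift`), take the algebra structure given by it. `S_DSC` gives `ρ₁ : G → GL_n(k)` with traces `ψ` (`x = (ψ g : k)`). Compose with a ring homomorphism `k → ℂ` (`IsAlgClosed.lift` again). -/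
def S_CPX : Prop := ∀ (K : Type) [Field K] [CharZero K] [IsAlgClosed K] (G : Type) [Group G] [Group.FG G] (n : ℕ)
  (ρ : G →* GL (Fin n) K) (ψ : G → ℤ), (∀ g, (ρ g).val.trace = (ψ g : K)) →
  ∃ ρ' : G →* GL (Fin n) ℂ, ∀ g, (ρ' g).val.trace = (ψ g : ℂ)

/-- **LNE** (weak form of the theorem of Lie, Kolchin and Mal'cev). A solvable group acting on `V ≠ 0` has a subgroup of finite index with an invariant line.

Proof. Induction on `dim V`, for all `G`. Let `G` be solvable, `ρ : G → End V`, all `ρ g` invertible. If some subgroup `G₁` of finite index has an invariant subspace `0 ≠ W ≠ V`, the induction hypothesis for `G₁` acting on `W` gives the claim. So assume (*) that no subgroup of finite index has an invariant subspace other than `0, V`.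
Claim: for every `d`, if `ρ(g)` is a scalar for all `g` in the `d`-th term `G^(d)` of the derived series, then `V` is a line. (For large `d` the hypothesis holds: `G^(d) = 1`.) Induction on `d`. `d = 0`: all `ρ g` are scalars, so all subspaces are invariant, so `dim V = 1` by (*).
`d + 1`: let `A = G^(d)`, normal in `G`, `ρ([A, A])` scalar. Let `Z = {a ∈ A : ρ a commutes with all ρ b, b ∈ A}`, normal in `G` (the set of these is a subgroup, stable under conjugation).
(a) `ρ(Z)` consists of scalars: commuting operators, so they have a common eigenvector; for a function `χ : Z → K` let `V_χ = {v : ρ(z) v = χ(z) v ∀ z ∈ Z}`. There are only finitely many `χ` with `V_χ ≠ 0` (joint eigenspaces are independent), and `G` permutes them (`ρ(g) V_χ = V_{χ^g}`, `Z` normal), so a subgroup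
of finite index preserves each of them; by (*) `V = V_χ` for one `χ`.
(b) For `a, b ∈ A`: `ρ(a) ρ(b) = c(a, b) ρ(b) ρ(a)` with a scalar `c(a,b)`, and `c(a,b)^n = 1`, `n = dim V` (determinants). `A / Z` is finite: choose representatives `a_i` of different cosets of `Z`; the operators `ρ(a_i)` are linearly independent: if `∑ x_i ρ(a_i) = 0` is a shortest nontrivial relation, with `i ≠ j` in it, then
`a_i a_j⁻¹ ∉ Z`, so there is `b ∈ A` with `c(b, a_i) ≠ c(b, a_j)`; conjugate the relation with `ρ(b)` and subtract a multiple: a shorter one. So there are at most `n²` cosets.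
(c) `G` acts by conjugation on the finite set `A / Z`, so a subgroup `G₁` of finite index acts trivially: for `g ∈ G₁`, `a ∈ A`: `ρ(g) ρ(a) ρ(g)⁻¹ = e(g, a) ρ(a)`, `e(g,a)` a scalar (`ρ(Z)` is scalar), `e(g,a)^n = 1`, `e(g g', a) = e(g,a) e(g',a)`, and `e(g,a)` depends only on the coset `a Z` (scalars commute with everything). So `G₂ = {g ∈ G₁ : e(g, a) = 1 ∀ a ∈ A}` has
finite index (finitely many cosets, finitely many `n`-th roots of unity). So `ρ(A)` commutes with `ρ(G₂)`: an eigenspace of `ρ(a)`, `a ∈ A`, is `G₂`-invariant, so it is `V` by (*). So `ρ(A)` is scalar, and the induction hypothesis (for `d`) applies. (If the characteristic of `K` is `p > 0` everything holds too: `n`-th roots of unity are finite in number.) -/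
def S_LNE : Prop := ∀ (K : Type) [Field K] [IsAlgClosed K] (V : Type) [AddCommGroup V] [Module K V]
  [FiniteDimensional K V] (G : Type) [Group G], Group.IsSolvable G → 0 < finrank K V →
  ∀ ρ : G →* Module.End K V, ∃ G' : Subgroup G, G'.index ≠ 0 ∧
    ∃ v : V, v ≠ 0 ∧ ∀ g ∈ G', ∃ c : K, ρ g v = c • v

/-- **MAL** (hypothesis `S_LNE`). Theorem of Mal'cev in dimension `3`: a solvable group of `3 × 3` matrices is triangularizable on a subgroup of finite index.

Proof. `V = Fin 3 → K`, `G` acts by `Matrix.mulVecLin` (`Matrix.toLin'`). By `S_LNE` there are `G₁` of finite index and `v₀ ≠ 0` spanning a `G₁`-invariant line `L`. `S_LNE` for `G₁` (subgroups of solvable groups are solvable) acting on `V ⧸ L` (`Submodule.mapQ`): `G₂ ≤ G₁` of finite index and `v₁ ∉ L` with `ρ(g) v₁ ∈ K v₁ + L` for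
`g ∈ G₂`. Choose `v₂` such that `v₀, v₁, v₂` is a basis, and let `P` be the matrix with these columns. Then `P⁻¹ ρ(g) P` is upper triangular for `g ∈ G₂`: its columns `0`, `1` are the coordinates of `ρ(g) v₀`, `ρ(g) v₁`. (`G₂` as a subgroup of `G`: `Subgroup.map G₁.subtype`; `Subgroup.index_map` or `relIndex_mul_index`.) -/
def S_MAL : Prop := ∀ (K : Type) [Field K] [IsAlgClosed K] (G : Type) [Group G], Group.IsSolvable G →
  ∀ ρ : G →* GL (Fin 3) K, ∃ G' : Subgroup G, G'.index ≠ 0 ∧ ∃ P : GL (Fin 3) K,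
    ∀ g ∈ G', ∀ i j : Fin 3, j < i → (P⁻¹ * ρ g * P).val i j = 0

/-- **TRC**. Commutators of simultaneously triangular matrices are unipotent.

Proof. We may replace `A`, `B` by `P⁻¹ A P`, `P⁻¹ B P` (upper triangular), as `(X - 1)³ = 0` iff `(P⁻¹ X P - 1)³ = 0`. For upper triangular matrices the diagonal entries are multiplicative: `(X Y)_ii = X_ii Y_ii`, products and inverses are upper triangular (for `3 × 3`: from `X⁻¹ X = 1` entry by entry; or `Matrix.BlockTriangular`,
`Matrix.blockTriangular_inv_of_blockTriangular`). So `A B A⁻¹ B⁻¹` is upper triangular with diagonal `1`, and the cube of a strictly upper triangular `3 × 3` matrix is zero. The second part: same for `X` with diagonal entries `d_i` of `P⁻¹ X P` all equal to `1`. -/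
def S_TRC : Prop := ∀ (K : Type) [Field K] (P : GL (Fin 3) K),
  (∀ A B : GL (Fin 3) K, (∀ i j : Fin 3, j < i → (P⁻¹ * A * P).val i j = 0) →
    (∀ i j : Fin 3, j < i → (P⁻¹ * B * P).val i j = 0) → ((A * B * A⁻¹ * B⁻¹).val - 1) ^ 3 = 0) ∧
  (∀ A : GL (Fin 3) K, (∀ i j : Fin 3, j < i → (P⁻¹ * A * P).val i j = 0) →
    ((A.val - 1) ^ 3 = 0 ↔ ∀ i : Fin 3, (P⁻¹ * A * P).val i i = 1)) ∧
  (∀ A B : GL (Fin 3) K, (∀ i j : Fin 3, j < i → (P⁻¹ * A * P).val i j = 0) →
    (∀ i j : Fin 3, j < i → (P⁻¹ * B * P).val i j = 0) →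
    ∀ i : Fin 3, (P⁻¹ * (A * B) * P).val i i = (P⁻¹ * A * P).val i i * (P⁻¹ * B * P).val i i)

/-- **NRM**. An integral matrix normalizing (up to commensurability) the cyclic group of a unipotent matrix.

Proof. Over `ℚ` let `N = (z - 1) - (z - 1)²/2` (the logarithm), `N³ = 0`, `z = 1 + N + N²/2`, and for integers `m`: `z^m = 1 + m N + m² N²/2` (induction, or `(1 + N + N²/2)` polynomial identity), so `(z^m - 1) - (z^m - 1)²/2 = m N`. The same for `s z s⁻¹`, whose logarithm is `s N s⁻¹`. So `(s z s⁻¹)^a = z^b` gives `a s N s⁻¹ = b N`,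
`s N s⁻¹ = c N`, `c = b/a ∈ ℚ^×`. `N ≠ 0`. Multiply `N` by a rational number such that the result `N₀` is an integral matrix with entries of gcd `1`. `s N₀ s⁻¹ = c N₀` is integral (as `s, s⁻¹` are) and also with entries of gcd `1` (if a prime divides all entries of `s N₀ s⁻¹`, it divides those of `N₀ = s⁻¹(s N₀ s⁻¹)s`). So `c = ± 1`
(`c = u/w` in lowest terms: `w N₀' = u N₀`, so `w ∣ u · gcd = u`, …). So `s² N s⁻² = N`, `s²` commutes with `N`, so with `z = 1 + N + N²/2`. -/
def S_NRM : Prop := ∀ (z s : SZ 3) (a b : ℤ), (z.val - 1) ^ 3 = 0 → a ≠ 0 → b ≠ 0 →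
  (s * z * s⁻¹) ^ a = z ^ b → s ^ 2 * z = z * s ^ 2

/-- **EXC** (hypotheses `S_TRC`, `S_CUN`, `S_NRM`). A triangularizable subgroup of `SL_3(ℤ)` which is not virtually abelian contains two commuting unipotent matrices without common powers.

Proof. Let `U = {g ∈ T : (g - 1)³ = 0}`; by `S_TRC` (second and third part, for `std 3 K g`; `ℤ → K` is injective) it is the set of `g ∈ T` such that all diagonal entries `d_i(g) = (P⁻¹ std(g) P)_ii` are `1`, the kernel of `d : T → (Fin 3 → K)`, multiplicative; so `U` is a normal subgroup of `T` containing the commutators of `T`. A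
unipotent matrix `u ≠ 1` has infinite order (`u^m = 1 + m N + m² N²/2` with `N ≠ 0` the logarithm, see `S_NRM`: `u^m = 1` implies `m N = 0`), and `u^m = w^m`, `m ≠ 0`, for unipotent `u, w` implies `u = w` (same logarithms). Suppose that the conclusion is false: any two commuting `x, y ∈ U` satisfy `x^a = y^b` for some `(a,b) ≠ (0,0)`.
(1) `U` is abelian: let `u, w ∈ U`, `c = u w u⁻¹ w⁻¹ ≠ 1`. Conjugated by `P`, `U` consists of upper unitriangular `3 × 3` matrices, so `c` commutes with all elements of `U` (commutators of unitriangular `3 × 3` matrices are `1 + x E_02`). `u` and `c` commute, so `u^a = c^b`, `(a,b) ≠ 0`. If `a ≠ 0`: `u^a` commutes with `w`; but `u^a w = c^a w u^a` (`c` central), so `c^a = 1`,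
a contradiction. So `a = 0`, `c^b = 1`, `b ≠ 0`, a contradiction. (2) `U ≠ 1`: otherwise all commutators of `T` are `1` and `T` is abelian, contrary to the hypothesis with `A = T`. Let `z ∈ U`, `z ≠ 1`. (3) For `s ∈ T`: `s z s⁻¹ ∈ U` commutes with `z` (1), so `(s z s⁻¹)^a = z^b`, `(a,b) ≠ 0`; both are nonzero (infinite order). By `S_NRM` `s²` commutes with `z`, so by `S_CUN`
(`X = z`, `Y = s²`) `s⁴ ∈ U`. So the image of `d` consists of triples of fourth roots of unity, at most `64` elements, so `U` has finite index in `T`. As `U` is abelian, this contradicts the hypothesis with `A = U`. -/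
def S_EXC : Prop := ∀ (K : Type) [Field K] [CharZero K] (T : Subgroup (SZ 3)) (P : GL (Fin 3) K),
  (∀ g ∈ T, ∀ i j : Fin 3, j < i → (P⁻¹ * std 3 K g * P).val i j = 0) →
  (∀ A : Subgroup (SZ 3), A ≤ T → A.relIndex T ≠ 0 → ¬ ∀ x ∈ A, ∀ y ∈ A, x * y = y * x) →
  ∃ x ∈ T, ∃ y ∈ T, (x.val - 1) ^ 3 = 0 ∧ (y.val - 1) ^ 3 = 0 ∧ x * y = y * x ∧
    ∀ a b : ℤ, x ^ a = y ^ b → a = 0 ∧ b = 0

/-- **EMU** (hypotheses `S_GDT`, `S_TRZ`, `S_SIGK`, `S_RK1`, `S_EMB`). A group in the genus of `SL_3(ℤ)`: the `2`-adic representation, and an integral form if there is a unipotent element.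

Proof. `S_GDT` for `n = 3` gives `f, ρ`; `S_TRZ` gives `ψ` (`QLE` both ways from `Genus`). Let `ρ = ρ_2`; if `tr ρ_2(g) = ψ(g)` for all `g` take `ψ`, otherwise `g ↦ ψ(g⁻¹)`. Let `t ≠ 1` with `(ρ t - 1)³ = 0`. Over `K = AlgebraicClosure ℚ_[2]` the matrix `A = ρ_K(t) - 1` satisfies `A³ = 0`, and `A ≠ 0` as `ρ`, `toQ`
(`Pool.Agent.H317.GR.toQ_inj`) and `GeneralLinearGroup.map` (`glmap_inj`, same file `Pool/Agent/H317/GR/Main.lean`) are injective. `S_RK1` gives `k, v, φ`, `S_SIGK` (with the `ψ` of `S_TRZ`) gives `σ, P`. `σ` is injective: if `σ g = 1` then `f m g = 1` for all `m > 0`, so `g = 1` (last part of `S_GDT`). `S_EMB` gives `PDense σ.range`. -/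
def S_EMU : Prop := ∀ (Λ : Type) [Group Λ], Genus 3 Λ →
  haveI : Fact (Nat.Prime 2) := ⟨Nat.prime_two⟩
  ∃ (ρ : Λ →* SpecialLinearGroup (Fin 3) ℤ_[2]) (ψ : Λ → ℤ), Function.Injective ρ ∧
    (∀ g, (ρ g).val.trace = (ψ g : ℤ_[2])) ∧
    ∀ t : Λ, t ≠ 1 → ((ρ t).val - 1) ^ 3 = 0 →
    ∃ (σ : Λ →* SZ 3) (P : GL (Fin 3) (AlgebraicClosure ℚ_[2])), Function.Injective σ ∧
      PDense σ.range ∧ ∀ g, std 3 (AlgebraicClosure ℚ_[2]) (σ g) * P =
        P * GeneralLinearGroup.map (algebraMap ℚ_[2] (AlgebraicClosure ℚ_[2])) (toQ 3 2 (ρ g))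

/-- **UR2**. Library: `Pool.Agent.Results.MP_a2a22c_al.UnipotentRankTwo.result` in `Pool/Graph/R_pool_sql_team_seeded_707910d6/Results/MP_a2a22c_al/UnipotentRankTwo.lean` (`team-store fetch /workdir/pool PATH`), second part (`PDense` is its `ProfinitelyDense`).

Proof. `H = σ.range = ⊤`, so the injective `σ` is an isomorphism (`MulEquiv.ofBijective`). -/
def S_UR2 : Prop := ∀ (Λ : Type) [Group Λ] (σ : Λ →* SZ 3), Function.Injective σ → PDense σ.range →
  ∀ x y : SZ 3, x ∈ σ.range → y ∈ σ.range → (x.val - 1) ^ 3 = 0 → (y.val - 1) ^ 3 = 0 → x * y = y * x →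
  (∀ a b : ℤ, x ^ a = y ^ b → a = 0 ∧ b = 0) → Nonempty (Λ ≃* SZ 3)

/-- **SOL** (hypotheses `S_EMU`, `S_MAL`, `S_TRC`, `S_EXC`, `S_UR2`). Solvable subgroups.

Proof. Let `ρ, ψ` be as in `S_EMU`, `K = AlgebraicClosure ℚ_[2]`, `ρ_K = map ∘ toQ ∘ ρ` (injective: `toQ_inj`, `glmap_inj` in `Pool/Agent/H317/GR/Main.lean`). `S_MAL` for `ρ_K ∘ S.subtype` gives `G' ≤ S` of finite index and `P`. `G'` is not commutative (hypothesis on `S`), so there are `a, b ∈ G'` with `t = a b a⁻¹ b⁻¹ ≠ 1`, and `(ρ_K(t) - 1)³ = 0` by `S_TRC`, so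
`(ρ t - 1)³ = 0` (`ℤ_[2] → K` is injective). `S_EMU` gives `σ, P'`. Let `T = σ(G')` (`(G'.map S.subtype).map σ`). For `g ∈ G'`: `std(σ g) = P' ρ_K(g) P'⁻¹`, so `(P' P)⁻¹ std(σ g) (P' P) = P⁻¹ ρ_K(g) P` is upper triangular. If `A ≤ T` is commutative of finite relative index in `T`, then `A.comap σ ⊓ (G'.map S.subtype)` is commutative (`σ` is injective) and
has finite relative index in `G'.map S.subtype`, so in `S` (`Subgroup.relIndex_mul_relIndex`), a contradiction. `S_EXC` gives `x, y ∈ T ≤ σ.range`, and `S_UR2` the claim. -/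
def S_SOL : Prop := ∀ (Λ : Type) [Group Λ], Genus 3 Λ → ∀ S : Subgroup Λ, Group.IsSolvable S →
  (∀ A : Subgroup Λ, A ≤ S → A.relIndex S ≠ 0 → ¬ ∀ x ∈ A, ∀ y ∈ A, x * y = y * x) →
  Nonempty (Λ ≃* SZ 3)

/-- **DIS** (hypotheses `S_EMU`, `S_CPX`, `S_DST`, `S_CH3`, `S_CUN`, `S_UR2`). Distorted elements.

Proof. Let `ρ, ψ` be as in `S_EMU`. `S_CPX` (for `K = AlgebraicClosure ℚ_[2]` and `map ∘ toQ ∘ ρ`, whose traces are the `ψ g`) and `S_DST` give `N > 0` with `ψ(x^N) = 3 = ψ((x^N)⁻¹)`. So `(ρ(x^N) - 1)³ = 0` by `S_CH3` over `ℤ_[2]`. `x^N ≠ 1` (otherwise `x^N = y^0` with `N ≠ 0`). `S_EMU` (`t = x^N`) gives `σ, P`; over `K`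
`std(σ(x^N)) - 1 = P (ρ_K(x^N) - 1) P⁻¹`, so `(σ(x^N) - 1)³ = 0` over `ℤ`. With `X = σ(x^N) ≠ 1`, `Y = σ y`: `X Y = Y X`, so `(Y² - 1)³ = 0` (`S_CUN`). `S_UR2` for `X` and `Y²`: `X^a = (Y²)^b` gives `x^{N a} = y^{2 b}` (`σ` injective), so `N a = 0 = 2 b`. -/
def S_DIS : Prop := ∀ (Λ : Type) [Group Λ], Genus 3 Λ → ∀ x y : Λ, x * y = y * x →
  (∀ a b : ℤ, x ^ a = y ^ b → a = 0 ∧ b = 0) → Distorted x → Nonempty (Λ ≃* SZ 3)

end Pool.Agent.H317.GI
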