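import Mathlib
import Pool.Agent.H317.GI.Stm
import Pool.Agent.H317.GH.All
import Pool.Agent.H668.GI.LNE
import Pool.Agent.H825.GI.LATK
import Pool.Agent.H641.GI.SIGK
import Pool.Agent.H250.GI.DST
import Pool.Agent.H69.GI.EXC
import Pool.Agent.H372.GI.CUN
import Pool.Agent.H178.GI.NRM
import Pool.Agent.H111.GI.MAL
import Pool.Agent.H718.GI.SOL
import Pool.Agent.H328.GI.DIS
import Pool.Agent.H260.GI.EMU
import Pool.Agent.H772.GI.TRC
import Pool.Agent.H789.GI.RK1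
import Pool.Agent.H682.GI.CPX
import Pool.Agent.H401.GI.CH3
import Pool.Agent.H324.GI.UR2

/-! # Project GI: all parts -/

set_option autoImplicit false

namespace Pool.Agent.H317.GI

open Pool.Agent.H317.GR Pool.Agent.H317.GH

theorem t_sigk : S_SIGK :=
  Pool.Agent.H641.GI.sigk Pool.Agent.H379.GR.aie Pool.Agent.H355.GR.cnj Pool.Agent.H825.GI.latk
    Pool.Agent.H322.GR.ing Pool.Agent.H640.GR.mod Pool.Agent.H322.GR.pai

theorem t_cun : S_CUN :=
  Pool.Agent.H372.GI.cun Pool.Agent.H789.GI.rk1 Pool.Agent.H364.GR.rkz Pool.Agent.H675.GR.lin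

theorem t_emu : S_EMU :=
  Pool.Agent.H260.GI.emu Pool.Agent.H317.GH.t_gdt t_trz t_sigk Pool.Agent.H789.GI.rk1
    Pool.Agent.H297.GR.emb

theorem t_exc : S_EXC :=
  Pool.Agent.H69.GI.exc Pool.Agent.H772.GI.trc t_cun Pool.Agent.H178.GI.nrm

theorem t_sol : S_SOL :=
  Pool.Agent.H718.GI.sol t_emu (Pool.Agent.H111.GI.mal Pool.Agent.H668.GI.lne)
    Pool.Agent.H772.GI.trc t_exc Pool.Agent.H324.GI.ur2

theorem t_dis : S_DIS :=
  Pool.Agent.H328.GI.dis t_emu (Pool.Agent.H682.GI.cpx Pool.Agent.H772.GR.dsc)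
    Pool.Agent.H250.GI.dst Pool.Agent.H401.GI.ch3 t_cun Pool.Agent.H324.GI.ur2

end Pool.Agent.H317.GI
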